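import Pool.Agent.H17.S4b

set_option autoImplicit false

namespace Pool.Agent.Results.MP_c46995_nt.Shift

/-- `S k m n`: the coefficient of `x ^ n` in `(1 - x) ^ (-m) ∏ (1 - x ^ (k ^ i)) ^ (-m (k - 1))`.
The factor `1 / (1 - x ^ (k ^ i))` is the series with coefficient `1` at the multiples of `k ^ i`;
the factors with `i > n` do not affect the coefficient. -/
noncomputable def S (k m n : ℕ) : ℤ :=
  PowerSeries.coeff n ((PowerSeries.mk (fun _ : ℕ => (1 : ℤ))) ^ m * (∏ i ∈ Finset.range (n + 1),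
    PowerSeries.mk (fun j : ℕ => if k ^ i ∣ j then (1 : ℤ) else 0)) ^ (m * (k - 1)))

/-- the largest `s` with `4 ^ s ∣ N` (used for nonzero `N` only) -/
noncomputable def phi4 (N : ℤ) : ℕ := sSup {s : ℕ | (4 : ℤ) ^ s ∣ N}

theorem result : ∀ s m n : ℕ, 3 ≤ s →
    S 4 (2 ^ s * m + 2 ^ (s - 1)) n ≠ 0 ∧ S 4 (2 ^ (s - 1)) n ≠ 0 ∧
    phi4 (S 4 (2 ^ s * m + 2 ^ (s - 1)) n) = phi4 (S 4 (2 ^ (s - 1)) n) := by
  intro s m n hs
  obtain ⟨r, rfl⟩ : ∃ r, s = r + 3 := ⟨s - 3, by omega⟩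
  rw [show r + 3 - 1 = r + 2 by omega]
  change Pool.Agent.H17.S4.S _ _ ≠ 0 ∧ Pool.Agent.H17.S4.S _ _ ≠ 0 ∧
    phi4 (Pool.Agent.H17.S4.S _ _) = phi4 (Pool.Agent.H17.S4.S _ _)
  by_cases hn : n = 0
  · subst hn; simp [Pool.Agent.H17.S4.S_zero]
  have h4 : 2 ^ (r + 2) = 4 * 2 ^ r := by ring
  have h5 : 2 ^ (r + 3) * m + 2 ^ (r + 2) = 4 * (2 ^ r * (2 * m + 1)) := by ring
  have h7 : 2 ^ (r + 3) * m + 2 ^ (r + 2) = 2 ^ (r + 2) * (2 * m + 1) := by ring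
  have a := Pool.Agent.H17.S4.main (2 ^ (r + 2)) n (by positivity) (by omega) hn
  have b := Pool.Agent.H17.S4.main (2 ^ (r + 3) * m + 2 ^ (r + 2)) n (by positivity) (by omega) hn
  have e : Pool.Agent.H17.S4.f (2 ^ (r + 3) * m + 2 ^ (r + 2)) (Pool.Agent.H17.S4.v n) =
      Pool.Agent.H17.S4.f (2 ^ (r + 2)) (Pool.Agent.H17.S4.v n) := by
    unfold Pool.Agent.H17.S4.f
    rw [if_neg (by omega), if_pos (by omega), if_neg (by omega), if_pos (by omega), h7]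
    have h1 : padicValNat 2 (2 * m + 1) = 0 := Pool.Agent.H17.S4.v_odd (by omega)
    simp only [Pool.Agent.H17.S4.v]
    rw [padicValNat.mul (by positivity) (by omega), h1, add_zero]
  rw [e] at b
  refine ⟨?_, ?_, b.phi.trans a.phi.symm⟩
  · obtain ⟨y, hy⟩ := b
    rw [hy]; exact mul_ne_zero (by positivity) (by omega)
  · obtain ⟨y, hy⟩ := a
    rw [hy]; exact mul_ne_zero (by positivity) (by omega)

end Pool.Agent.Results.MP_c46995_nt.Shift
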